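import Mathlib
import Pool.Agent.W819.Kep.Geom

set_option autoImplicit false

namespace Pool.Agent.Results.MP_4e5648_mp.CircleEllipse

/-- Stationary pairs of the squared distance between the circle with centre `F` and radius `R` in
the plane of `A`, `B`, and the ellipse with focus `F`, semimajor axis `a`, eccentricity `e` in the
plane of `u`, `w`: there are at most ten of them. -/
theorem result (F u w A B : EuclideanSpace ℝ (Fin 3)) (a e R : ℝ)
    (P Q : ℝ → EuclideanSpace ℝ (Fin 3))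
    (ha : 0 < a) (he0 : 0 < e) (he1 : e < 1) (hR : 0 < R)
    (hu : ‖u‖ = 1) (hw : ‖w‖ = 1) (huw : inner ℝ u w = 0)
    (hA : ‖A‖ = 1) (hB : ‖B‖ = 1) (hAB : inner ℝ A B = 0)
    (hP : ∀ s : ℝ, P s = F + (a * (e + Real.cos s)) • u +
      (a * Real.sqrt (1 - e ^ 2) * Real.sin s) • w)
    (hQ : ∀ t : ℝ, Q t = F + (R * Real.cos t) • A + (R * Real.sin t) • B) :
    ({x : EuclideanSpace ℝ (Fin 3) × EuclideanSpace ℝ (Fin 3) |
        ∃ s t : ℝ, x = (P s, Q t) ∧ deriv (fun s' : ℝ => ‖P s' - Q t‖ ^ 2) s = 0 ∧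
          deriv (fun t' : ℝ => ‖P s - Q t'‖ ^ 2) t = 0}).Finite ∧
    ({x : EuclideanSpace ℝ (Fin 3) × EuclideanSpace ℝ (Fin 3) |
        ∃ s t : ℝ, x = (P s, Q t) ∧ deriv (fun s' : ℝ => ‖P s' - Q t‖ ^ 2) s = 0 ∧
          deriv (fun t' : ℝ => ‖P s - Q t'‖ ^ 2) t = 0}).ncard ≤ 10 := by
  have hP' : ∀ s : ℝ, HasDerivAt P ((-(a * Real.sin s)) • u +
      (a * Real.sqrt (1 - e ^ 2) * Real.cos s) • w) s := by
    intro s
    have h1 : HasDerivAt (fun s : ℝ => F + (a * (e + Real.cos s)) • u +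
        (a * Real.sqrt (1 - e ^ 2) * Real.sin s) • w) ((-(a * Real.sin s)) • u +
        (a * Real.sqrt (1 - e ^ 2) * Real.cos s) • w) s := by
      have k1 := ((((Real.hasDerivAt_cos s).const_add e).const_mul a).smul_const u).const_add F
      have k2 := (((Real.hasDerivAt_sin s).const_mul
        (a * Real.sqrt (1 - e ^ 2))).smul_const w)
      refine (k1.add k2).congr_deriv ?_
      rw [mul_neg]
    have h2 : P = fun s : ℝ => F + (a * (e + Real.cos s)) • u +
        (a * Real.sqrt (1 - e ^ 2) * Real.sin s) • w := funext hP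
    rw [h2]; exact h1
  have hQ' : ∀ t : ℝ, HasDerivAt Q ((-(R * Real.sin t)) • A + (R * Real.cos t) • B) t := by
    intro t
    have h1 : HasDerivAt (fun t : ℝ => F + (R * Real.cos t) • A + (R * Real.sin t) • B)
        ((-(R * Real.sin t)) • A + (R * Real.cos t) • B) t := by
      have k1 := ((((Real.hasDerivAt_cos t)).const_mul R).smul_const A).const_add F
      have k2 := (((Real.hasDerivAt_sin t).const_mul R).smul_const B)
      refine (k1.add k2).congr_deriv ?_
      rw [mul_neg]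
    have h2 : Q = fun t : ℝ => F + (R * Real.cos t) • A + (R * Real.sin t) • B := funext hQ
    rw [h2]; exact h1
  have hset : {x : EuclideanSpace ℝ (Fin 3) × EuclideanSpace ℝ (Fin 3) |
        ∃ s t : ℝ, x = (P s, Q t) ∧ deriv (fun s' : ℝ => ‖P s' - Q t‖ ^ 2) s = 0 ∧
          deriv (fun t' : ℝ => ‖P s - Q t'‖ ^ 2) t = 0} =
      {x : EuclideanSpace ℝ (Fin 3) × EuclideanSpace ℝ (Fin 3) |
        ∃ s t : ℝ, x = (P s, Q t) ∧ inner ℝ (P s - Q t) ((fun s : ℝ => (-(a * Real.sin s)) • u +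
      (a * Real.sqrt (1 - e ^ 2) * Real.cos s) • w) s) = 0 ∧
          inner ℝ (P s - Q t) ((fun t : ℝ => (-(R * Real.sin t)) • A +
            (R * Real.cos t) • B) t) = 0} := by
    ext x
    simp only [Set.mem_ofPred_eq]
    refine exists_congr fun s => exists_congr fun t => and_congr_right fun _ => ?_
    have d1 : deriv (fun s' : ℝ => ‖P s' - Q t‖ ^ 2) s = 2 * inner ℝ (P s - Q t)
        ((-(a * Real.sin s)) • u + (a * Real.sqrt (1 - e ^ 2) * Real.cos s) • w) :=
      (((hP' s).sub_const (Q t)).norm_sq).deriv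
    have d2 : deriv (fun t' : ℝ => ‖P s - Q t'‖ ^ 2) t = 2 * inner ℝ (P s - Q t)
        (-((-(R * Real.sin t)) • A + (R * Real.cos t) • B)) :=
      (((hQ' t).const_sub (P s)).norm_sq).deriv
    rw [d1, d2, inner_neg_right]
    constructor
    · rintro ⟨h1, h2⟩
      exact ⟨by linarith, by linarith⟩
    · rintro ⟨h1, h2⟩
      exact ⟨by linarith, by linarith⟩
  have h10 := Pool.Agent.W819.Kep.crit_le_ten F u w A B a e R ha he0 he1 hR hu hw huw hA hB hAB
    P _ Q _ hP (fun _ => rfl) hQ (fun _ => rfl)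
  rw [hset]
  have hfin := Set.finite_of_encard_le_coe (k := 10) h10
  refine ⟨hfin, ?_⟩
  rw [← hfin.cast_ncard_eq] at h10
  exact_mod_cast h10

end Pool.Agent.Results.MP_4e5648_mp.CircleEllipse
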